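import Pool.Agent.Helper446.Comp
import Pool.Agent.Helper750.DC.CP

/-!
An upper semicomputable conditional function with Kraft sums at most one which no prefix-stable
conditional algorithm realises exactly.
-/

set_option autoImplicit false

namespace Pool.Agent.X234.EX

open Encodable Nat.Partrec Pool.Agent.Helper446.RE Pool.Agent.Helper750.DC
open scoped ENNReal

/-- strings -/
abbrev Str := List Bool

/-- the special strings -/
def sp (i : ℕ) : Str := List.replicate i true

theorem sp_inj {i j : ℕ} (h : sp i = sp j) : i = j := by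
  have := congrArg List.length h
  simpa [sp] using this

/-- value table: state, index -/
def tab (st i : ℕ) : ℕ :=
  (((([[3, 3, 3, 11, 13, 15, 17], [2, 3, 3, 3, 3, 3, 4], [3, 2, 3, 3, 3, 3, 4],
    [3, 3, 2, 3, 3, 3, 4], [3, 3, 3, 2, 2, 15, 17]] : List (List ℕ))[st]?).getD [])[i]?).getD
      (2 * i + 5)

theorem tab_comp {α : Type*} [Primcodable α] {s i : α → ℕ} (hs : Computable s)
    (hi : Computable i) : Computable fun a => tab (s a) (i a) := by
  unfold tab
  refine Computable.option_getD (f := fun a => _) ?_ (by fun_prop)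
  refine cgetElem (Computable.option_getD ?_ (Computable.const [])) hi
  exact cgetElem (Computable.const _) hs

/-- the value of the string `x` in state `st` -/
def val (st : ℕ) (x : Str) : ℕ :=
  if x = sp x.length ∧ x.length < 7 then tab st x.length else 2 * x.length + 5

theorem val_comp {α : Type*} [Primcodable α] {s : α → ℕ} {x : α → Str} (hs : Computable s)
    (hx : Computable x) : Computable fun a => val (s a) (x a) := by
  unfold val
  have hrep : Computable fun n : ℕ => sp n := by
    have h : Computable fun n : ℕ => (Nat.rec (motive := fun _ => Str) [] (fun _ r => true :: r) n : Str) := by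
      refine Computable.nat_rec (f := fun n : ℕ => n) (g := fun _ => ([] : Str))
        (h := fun _ y => true :: y.2) (by fun_prop) (by fun_prop) ?_
      show Computable fun x : ℕ × ℕ × Str => true :: x.2.2
      fun_prop
    refine h.of_eq fun n => ?_
    induction n with
    | zero => rfl
    | succ n ih => simp only [sp, List.replicate_succ] at ih ⊢; rw [← ih]
  refine cite (cp_and (cp_eq hx ?_) (cp_lt (by fun_prop) (by fun_prop))) (tab_comp hs (by fun_prop))
    (by fun_prop)
  exact hrep.comp (by fun_prop : Computable fun a => (x a).length)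

theorem val_sp {st i : ℕ} (hi : i < 7) : val st (sp i) = tab st i := by
  have : (sp i).length = i := by simp [sp]
  unfold val
  rw [this, if_pos ⟨rfl, hi⟩]

theorem tab_mono {st i : ℕ} (hi : i < 7) (hst : st < 5) : tab st i ≤ tab 0 i := by
  interval_cases i <;> interval_cases st <;> decide

theorem val_mono {st : ℕ} (hst : st < 5) (x : Str) : val st x ≤ val 0 x := by
  unfold val
  split
  · rename_i h; exact tab_mono h.2 hst
  · exact le_rfl

/-! ### the states -/

/-- all strings of length 3 -/
def L3 : List Str := [[false, false, false], [false, false, true], [false, true, false],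
  [false, true, true], [true, false, false], [true, false, true], [true, true, false],
  [true, true, true]]

/-- all strings of length 2 -/
def L2 : List Str := [[false, false], [false, true], [true, false], [true, true]]

/-- all strings of length 4 -/
def L4 : List Str := L3.flatMap fun p => [p ++ [false], p ++ [true]]

theorem mem_L3 {p : Str} : p ∈ L3 ↔ p.length = 3 := by
  constructor
  · intro h; simp only [L3, List.mem_cons, List.not_mem_nil, or_false] at h
    rcases h with rfl | rfl | rfl | rfl | rfl | rfl | rfl | rfl <;> rfl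
  · intro h
    match p, h with
    | [a, b, c], _ => cases a <;> cases b <;> cases c <;> simp [L3]

theorem mem_L2 {p : Str} : p ∈ L2 ↔ p.length = 2 := by
  constructor
  · intro h; simp only [L2, List.mem_cons, List.not_mem_nil, or_false] at h
    rcases h with rfl | rfl | rfl | rfl <;> rfl
  · intro h
    match p, h with
    | [a, b], _ => cases a <;> cases b <;> simp [L2]

theorem mem_L4 {p : Str} : p ∈ L4 ↔ p.length = 4 := by
  constructor
  · intro h
    simp only [L4, List.mem_flatMap, List.mem_cons, List.not_mem_nil, or_false] at h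
    obtain ⟨q, hq, rfl | rfl⟩ := h <;>
      · rw [mem_L3] at hq
        simp [hq]
  · intro h
    match p, h with
    | [a, b, c, d], _ => cases a <;> cases b <;> cases c <;> cases d <;> decide

/-- stage `n` approximation of the relation with index `y.length` -/
def Rn (n : ℕ) (y p x : Str) : Prop := wst (Str × Str × Str) y.length n (p, y, x) = true

theorem Rn_comp {α : Type*} [Primcodable α] {n : α → ℕ} {y p x : α → Str} (hn : Computable n)
    (hy : Computable y) (hp : Computable p) (hx : Computable x) :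
    ComputablePred fun a => Rn (n a) (y a) (p a) (x a) := by
  unfold Rn
  refine cp_eq ?_ (Computable.const true)
  exact (wst_comp (α := Str × Str × Str)).comp
    (((by fun_prop : Computable fun a => (y a).length).pair hn).pair (hp.pair (hy.pair hx)))

theorem Rn_mono {n m : ℕ} (h : n ≤ m) {y p x : Str} (hR : Rn n y p x) : Rn m y p x :=
  wst_mono h hR

/-- the three first special strings have got programs of length 3 -/
def Dn (n : ℕ) (y : Str) : Prop := ∀ i < 3, ∃ p ∈ L3, Rn n y p (sp i)

/-- the string `sp i` has a program which is the sibling of a program of another one -/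
def Bn (n : ℕ) (y : Str) (i : ℕ) : Prop := ∃ q ∈ L2, ∃ b ∈ [false, true], Rn n y (q ++ [b]) (sp i) ∧
  ∃ j < 3, j ≠ i ∧ Rn n y (q ++ [!b]) (sp j)

theorem sp_comp : Computable sp := by
  have h : Computable fun n : ℕ => (Nat.rec (motive := fun _ => Str) [] (fun _ r => true :: r) n : Str) := by
    refine Computable.nat_rec (f := fun n : ℕ => n) (g := fun _ => ([] : Str))
      (h := fun _ y => true :: y.2) (by fun_prop) (by fun_prop) ?_
    show Computable fun x : ℕ × ℕ × Str => true :: x.2.2
    fun_prop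
  refine h.of_eq fun n => ?_
  induction n with
  | zero => rfl
  | succ n ih => simp only [sp, List.replicate_succ] at ih ⊢; rw [← ih]

theorem Dn_comp : ComputablePred fun a : ℕ × Str => Dn a.1 a.2 := by
  unfold Dn
  refine cp_all_lt (p := fun (a : ℕ × Str) i => ∃ p ∈ L3, Rn a.1 a.2 p (sp i)) ?_ (by fun_prop)
  refine cp_ex_mem (p := fun (a : (ℕ × Str) × ℕ) p => Rn a.1.1 a.1.2 p (sp a.2)) ?_ (by fun_prop)
  exact Rn_comp (by fun_prop) (by fun_prop) (by fun_prop) (sp_comp.comp (by fun_prop))

theorem Bn_comp (i : ℕ) : ComputablePred fun a : ℕ × Str => Bn a.1 a.2 i := by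
  unfold Bn
  refine cp_ex_mem (p := fun (a : ℕ × Str) q => ∃ b ∈ [false, true],
    Rn a.1 a.2 (q ++ [b]) (sp i) ∧ ∃ j < 3, j ≠ i ∧ Rn a.1 a.2 (q ++ [!b]) (sp j)) ?_ (by fun_prop)
  refine cp_ex_mem (p := fun (a : (ℕ × Str) × Str) b =>
    Rn a.1.1 a.1.2 (a.2 ++ [b]) (sp i) ∧ ∃ j < 3, j ≠ i ∧ Rn a.1.1 a.1.2 (a.2 ++ [!b]) (sp j)) ?_
    (by fun_prop)
  refine cp_and (Rn_comp (by fun_prop) (by fun_prop) (by fun_prop) (by fun_prop)) ?_
  refine cp_ex_lt (p := fun (a : ((ℕ × Str) × Str) × Bool) j =>
    j ≠ i ∧ Rn a.1.1.1 a.1.1.2 (a.1.2 ++ [!a.2]) (sp j)) ?_ (by fun_prop)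
  refine cp_and (cp_not (cp_eq (by fun_prop) (by fun_prop))) ?_
  exact Rn_comp (by fun_prop) (by fun_prop) (by fun_prop) (sp_comp.comp (by fun_prop))

open Classical in
/-- the reaction -/
noncomputable def ch (n : ℕ) (y : Str) : ℕ :=
  if Bn n y 0 then 1 else if Bn n y 1 then 2 else if Bn n y 2 then 3 else 4

open Classical in
/-- the state at stage `n` -/
noncomputable def st : ℕ → Str → ℕ
  | 0, _ => 0
  | n + 1, y => if st n y = 0 then (if Dn n y then ch n y else 0) else st n y

theorem ch_comp : Computable fun a : ℕ × Str => ch a.1 a.2 := by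
  classical
  have h0 : Computable fun a : ℕ × Str => if Bn a.1 a.2 0 then 1 else if Bn a.1 a.2 1 then 2 else
      if Bn a.1 a.2 2 then 3 else 4 := cite (Bn_comp 0) (by fun_prop) (cite (Bn_comp 1) (by fun_prop)
    (cite (Bn_comp 2) (by fun_prop) (by fun_prop)))
  refine h0.of_eq fun a => ?_
  unfold ch
  congr

theorem ch_pos (n : ℕ) (y : Str) : 0 < ch n y ∧ ch n y < 5 := by
  unfold ch
  split_ifs <;> omega

theorem st_comp : Computable fun a : ℕ × Str => st a.1 a.2 := by
  classical
  have h : Computable fun a : ℕ × Str => (Nat.rec (motive := fun _ => ℕ) 0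
      (fun n r => if r = 0 then (if Dn n a.2 then ch n a.2 else 0) else r) a.1 : ℕ) := by
    refine Computable.nat_rec (f := fun a : ℕ × Str => a.1) (g := fun _ => 0)
      (h := fun a y => if y.2 = 0 then (if Dn y.1 a.2 then ch y.1 a.2 else 0) else y.2)
      (by fun_prop) (by fun_prop) ?_
    show Computable fun x : (ℕ × Str) × ℕ × ℕ =>
      if x.2.2 = 0 then (if Dn x.2.1 x.1.2 then ch x.2.1 x.1.2 else 0) else x.2.2
    refine cite (cp_eq (by fun_prop) (by fun_prop)) (cite ?_ ?_ (by fun_prop)) (by fun_prop)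
    · exact cp_comp Dn_comp (f := fun x : (ℕ × Str) × ℕ × ℕ => (x.2.1, x.1.2)) (by fun_prop)
    · exact Computable.comp (f := fun a : ℕ × Str => ch a.1 a.2)
        (g := fun x : (ℕ × Str) × ℕ × ℕ => (x.2.1, x.1.2)) ch_comp (by fun_prop)
  refine h.of_eq fun a => ?_
  obtain ⟨n, y⟩ := a
  dsimp only
  induction n with
  | zero => rfl
  | succ n ih => rw [st, ← ih]

theorem st_lt (n : ℕ) (y : Str) : st n y < 5 := by
  induction n with
  | zero => rw [st]; omega
  | succ n ih =>
    rw [st]
    split_ifs
    · exact (ch_pos n y).2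
    · omega
    · exact ih

theorem st_stable {n m : ℕ} (h : n ≤ m) {y : Str} (h0 : st n y ≠ 0) : st m y = st n y := by
  induction m, h using Nat.le_induction with
  | base => rfl
  | succ m _ ih => rw [st, if_neg (by rw [ih]; exact h0), ih]

/-- the approximations -/
noncomputable def kk (n : ℕ) (x y : Str) : ℕ := val (st n y) x

theorem kk_comp : Computable fun q : ℕ × Str × Str => kk q.1 q.2.1 q.2.2 := by
  unfold kk
  exact val_comp (Computable.comp (f := fun a : ℕ × Str => st a.1 a.2)
    (g := fun q : ℕ × Str × Str => (q.1, q.2.2)) st_comp (by fun_prop)) (by fun_prop)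

theorem kk_anti (x y : Str) : Antitone fun n => kk n x y := by
  intro n m h
  show val (st m y) x ≤ val (st n y) x
  by_cases h0 : st n y = 0
  · rw [h0]; exact val_mono (st_lt _ _) x
  · rw [st_stable h h0]

open Classical in
/-- the final state -/
noncomputable def fs (y : Str) : ℕ := if h : ∃ n, st n y ≠ 0 then st (Nat.find h) y else 0

theorem fs_lt (y : Str) : fs y < 5 := by
  unfold fs
  split_ifs
  · exact st_lt _ _
  · omega

theorem st_eventually (y : Str) : ∃ N, ∀ n ≥ N, st n y = fs y := by
  classical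
  by_cases h : ∃ n, st n y ≠ 0
  · refine ⟨Nat.find h, fun n hn => ?_⟩
    unfold fs
    rw [dif_pos h]
    exact st_stable hn (Nat.find_spec h)
  · refine ⟨0, fun n _ => ?_⟩
    unfold fs
    rw [dif_neg h]
    push Not at h
    exact h n

/-- the function -/
noncomputable def KK (x y : Str) : ℕ := val (fs y) x

theorem kk_lim (x y : Str) : ∃ N, ∀ n ≥ N, kk n x y = KK x y := by
  obtain ⟨N, hN⟩ := st_eventually y
  exact ⟨N, fun n hn => by unfold kk KK; rw [hN n hn]⟩

/-! ### the Kraft sum -/

theorem tsum_str (g : ℕ → ENNReal) : ∑' p : Str, g p.length = ∑' n : ℕ, 2 ^ n * g n := by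
  rw [← (Equiv.sigmaFiberEquiv (List.length : List Bool → ℕ)).tsum_eq, ENNReal.tsum_sigma']
  refine tsum_congr (fun n => ?_)
  have h1 : ∀ p : {p : List Bool // p.length = n},
      g (((Equiv.sigmaFiberEquiv (List.length : List Bool → ℕ)) ⟨n, p⟩).length) = g n := by
    intro p
    have : ((Equiv.sigmaFiberEquiv (List.length : List Bool → ℕ)) ⟨n, p⟩).length = n := p.2
    rw [this]
  rw [tsum_congr h1]
  have h2 : ∑' _ : List.Vector Bool n, g n = 2 ^ n * g n := by
    rw [tsum_fintype, Finset.sum_const, Finset.card_univ, card_vector, Fintype.card_bool,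
      nsmul_eq_mul]
    push_cast
    rfl
  exact h2

theorem sum_rest : ∑' x : Str, (1 / 2 : ℝ≥0∞) ^ (2 * x.length + 5) = 1 / 16 := by
  rw [tsum_str fun n => (1 / 2 : ℝ≥0∞) ^ (2 * n + 5)]
  have h1 : ∀ n : ℕ, (2 : ℝ≥0∞) ^ n * (1 / 2) ^ (2 * n + 5) = (1 / 2) ^ n * (1 / 2) ^ 5 := by
    intro n
    have : (2 : ℝ≥0∞) * (1 / 2) = 1 := by
      rw [one_div, ENNReal.mul_inv_cancel] <;> norm_num
    calc (2 : ℝ≥0∞) ^ n * (1 / 2) ^ (2 * n + 5)
        = ((2 : ℝ≥0∞) * (1 / 2)) ^ n * ((1 / 2) ^ n * (1 / 2) ^ 5) := by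
          rw [mul_pow]; ring
      _ = _ := by rw [this, one_pow, one_mul]
  rw [tsum_congr h1, ENNReal.tsum_mul_right]
  have h2 : ∑' n : ℕ, (1 / 2 : ℝ≥0∞) ^ n = 2 := by
    rw [ENNReal.tsum_geometric, one_div, ENNReal.one_sub_inv_two, inv_inv]
  rw [h2]
  have h3 : (1 / 2 : ℝ≥0∞) ^ 5 = (1 / 16) * (1 / 2) := by
    rw [one_div, one_div, ← ENNReal.inv_pow, ← ENNReal.mul_inv] <;> norm_num
  rw [h3, mul_comm, mul_assoc]
  have : (1 / 2 : ℝ≥0∞) * 2 = 1 := by
    rw [one_div, ENNReal.inv_mul_cancel] <;> norm_num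
  rw [this, mul_one]

theorem sum_tab {s : ℕ} (hs : s < 5) :
    ∑ i ∈ Finset.range 7, (1 / 2 : ℝ≥0∞) ^ (tab s i) ≤ 15 / 16 := by
  have h : ∑ i ∈ Finset.range 7, (1 / 2 : ℝ) ^ (tab s i) ≤ 15 / 16 := by
    interval_cases s <;>
    · simp only [Finset.sum_range_succ, Finset.sum_range_zero, tab]
      norm_num
  have h2 : ∀ n : ℕ, (1 / 2 : ℝ≥0∞) ^ n = ENNReal.ofReal ((1 / 2 : ℝ) ^ n) := by
    intro n
    rw [ENNReal.ofReal_pow (by norm_num)]
    congr 1
    rw [ENNReal.ofReal_div_of_pos (by norm_num)]
    simp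
  simp only [h2]
  rw [← ENNReal.ofReal_sum_of_nonneg (fun i _ => by positivity)]
  refine (ENNReal.ofReal_le_ofReal h).trans (le_of_eq ?_)
  rw [ENNReal.ofReal_div_of_pos (by norm_num)]
  norm_num

theorem sum_val {s : ℕ} (hs : s < 5) : ∑' x : Str, (1 / 2 : ℝ≥0∞) ^ (val s x) ≤ 1 := by
  classical
  let F : Finset Str := (Finset.range 7).image sp
  have h1 : ∀ x, (1 / 2 : ℝ≥0∞) ^ (val s x) ≤
      (if x ∈ F then (1 / 2 : ℝ≥0∞) ^ (val s x) else 0) + (1 / 2 : ℝ≥0∞) ^ (2 * x.length + 5) := by
    intro x
    by_cases hx : x ∈ F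
    · rw [if_pos hx]; exact le_self_add
    · rw [if_neg hx, zero_add]
      have : val s x = 2 * x.length + 5 := by
        unfold val
        rw [if_neg]
        rintro ⟨h1, h2⟩
        exact hx (Finset.mem_image.2 ⟨x.length, Finset.mem_range.2 h2, h1.symm⟩)
      rw [this]
  refine (ENNReal.tsum_le_tsum h1).trans ?_
  rw [ENNReal.tsum_add, sum_rest]
  have h2 : ∑' x : Str, (if x ∈ F then (1 / 2 : ℝ≥0∞) ^ (val s x) else 0) ≤ 15 / 16 := by
    rw [tsum_eq_sum (s := F) (fun x hx => if_neg hx)]
    rw [Finset.sum_congr rfl (fun x hx => if_pos hx)]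
    rw [Finset.sum_image (fun i _ j _ h => sp_inj h)]
    refine le_trans (le_of_eq ?_) (sum_tab hs)
    exact Finset.sum_congr rfl fun i hi => by rw [val_sp (Finset.mem_range.1 hi)]
  refine (add_le_add_left h2 _).trans (le_of_eq ?_)
  rw [← ENNReal.add_div]
  norm_num
  exact ENNReal.div_self (by norm_num) (by norm_num)

end Pool.Agent.X234.EX
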