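import Pool.Agent.X234.EX.Game

/-!
No prefix-stable relation realises the function `KK`.
-/

set_option autoImplicit false

namespace Pool.Agent.X234.EX

open Encodable Nat.Partrec Pool.Agent.Helper446.RE Pool.Agent.Helper750.DC
open scoped ENNReal

theorem L4_card : L4.toFinset.card = 16 := by decide

theorem L2_card : L2.toFinset.card = 4 := by decide

theorem cone2 : ∀ q ∈ L2, (L4.toFinset.filter fun w => q <+: w).card = 4 := by decide

theorem cone3 : ∀ q ∈ L3, (L4.toFinset.filter fun w => q <+: w).card = 2 := by decide

/-- The main combinatorial argument: `R y p x` is a relation (program `p` outputs `x` for the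
condition `y`). -/
theorem no_real (R : Str → Str → Str → Prop) (hre : REPred fun q : Str × Str × Str => R q.2.1 q.1 q.2.2)
    (hfun : ∀ y p x x', R y p x → R y p x' → x = x')
    (hst : ∀ y p p' x, p <+: p' → R y p x → R y p' x)
    (hex : ∀ x y, ∃ p, p.length = KK x y ∧ R y p x) : False := by
  classical
  obtain ⟨e, he⟩ := wst_univ hre
  let y : Str := List.replicate e true
  have hlen : y.length = e := by simp [y]
  have hR : ∀ p x, R y p x ↔ ∃ n, Rn n y p x := by
    intro p x
    unfold Rn
    rw [hlen]
    exact he (p, y, x)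
  have hsp : ∀ {i j : ℕ} {p : Str}, R y p (sp i) → R y p (sp j) → i = j :=
    fun h1 h2 => sp_inj (hfun y _ _ _ h1 h2)
  -- words of length four with given output
  let Wd : ℕ → Finset Str := fun i => L4.toFinset.filter fun w => R y w (sp i)
  have hWd : ∀ i j, i ≠ j → Disjoint (Wd i) (Wd j) := by
    intro i j hij
    rw [Finset.disjoint_left]
    intro w h1 h2
    exact hij (hsp (Finset.mem_filter.1 h1).2 (Finset.mem_filter.1 h2).2)
  have hsum : ∑ i ∈ Finset.range 7, (Wd i).card ≤ 16 := by
    rw [← Finset.card_biUnion (fun i _ j _ h => hWd i j h), ← L4_card]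
    exact Finset.card_le_card (Finset.biUnion_subset.2 fun i _ => Finset.filter_subset _ _)
  have hcone : ∀ {i : ℕ} {p : Str}, R y p (sp i) →
      (L4.toFinset.filter fun w => p <+: w) ⊆ Wd i := by
    intro i p h w hw
    rw [Finset.mem_filter] at hw
    exact Finset.mem_filter.2 ⟨hw.1, hst y _ _ _ hw.2 h⟩
  -- programs
  have hK : ∀ i < 7, KK (sp i) y = tab (fs y) i := fun i hi => val_sp hi
  -- the state changes at some stage
  have hchange : ∃ n, st n y ≠ 0 := by
    by_contra hno
    have hf : fs y = 0 := by unfold fs; rw [dif_neg hno]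
    push Not at hno
    have h3 : ∀ i < 3, ∃ p ∈ L3, R y p (sp i) := by
      intro i hi
      obtain ⟨p, hp, hRp⟩ := hex (sp i) y
      refine ⟨p, mem_L3.2 ?_, hRp⟩
      rw [hp, hK i (by omega), hf]
      interval_cases i <;> rfl
    choose! p hp hRp using h3
    have h4 : ∀ i < 3, ∃ n, Rn n y (p i) (sp i) := fun i hi => (hR _ _).1 (hRp i hi)
    choose! n hn using h4
    have hD : Dn (n 0 + n 1 + n 2) y := by
      intro i hi
      refine ⟨p i, hp i hi, Rn_mono ?_ (hn i hi)⟩
      interval_cases i <;> omega
    have h5 := hno (n 0 + n 1 + n 2 + 1)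
    rw [st, if_pos (hno _), if_pos hD] at h5
    exact absurd h5 (ch_pos _ _).1.ne'
  -- the first such stage
  obtain ⟨n0, hst0, hD, hfs⟩ : ∃ n0, st n0 y = 0 ∧ Dn n0 y ∧ fs y = ch n0 y := by
    have hspec := Nat.find_spec hchange
    have hmin := fun m hm => Nat.find_min hchange (m := m) hm
    have hfs : fs y = st (Nat.find hchange) y := by unfold fs; rw [dif_pos hchange]
    rcases hN : Nat.find hchange with _ | n0
    · rw [hN] at hspec; exact absurd rfl hspec
    · rw [hN] at hspec hfs
      have h0 : st n0 y = 0 := by
        have := hmin n0 (by rw [hN]; omega)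
        simpa using this
      rw [st, if_pos h0] at hspec hfs
      by_cases hD : Dn n0 y
      · rw [if_pos hD] at hfs
        exact ⟨n0, h0, hD, hfs⟩
      · rw [if_neg hD] at hspec
        exact absurd rfl hspec
  have toR : ∀ {p x}, Rn n0 y p x → R y p x := fun h => (hR _ _).2 ⟨_, h⟩
  have hprog : ∀ i < 7, ∃ p, p.length = tab (fs y) i ∧ R y p (sp i) := by
    intro i hi
    obtain ⟨p, hp, hRp⟩ := hex (sp i) y
    exact ⟨p, by rw [hp, hK i hi], hRp⟩
  -- case 1
  have case1 : ∀ i < 3, Bn n0 y i → fs y = i + 1 → False := by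
    intro i hi hB hf
    obtain ⟨q, hq, b, -, h1, j, hj, hji, h2⟩ := hB
    have h1 := toR h1
    have h2 := toR h2
    have hcard : ∀ m < 7, (if m = i then 6 else if m = 6 then 1 else 2) ≤ (Wd m).card := by
      intro m hm
      obtain ⟨p, hp, hRp⟩ := hprog m hm
      rw [hf] at hp
      split_ifs with hmi hm6
      · subst hmi
        have hp2 : p.length = 2 := by rw [hp]; interval_cases m <;> rfl
        have hne : ¬ p <+: q ++ [b] := by
          intro hpre
          have hpq : p = q := by
            have h5 : p <+: q := by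
              rw [List.prefix_concat_iff] at hpre
              rcases hpre with h | h
              · have := congrArg List.length h
                rw [List.length_append, hp2, mem_L2.1 hq] at this
                simp at this
              · exact h
            exact h5.eq_of_length (by rw [hp2, mem_L2.1 hq])
          subst hpq
          have h6 := hst y p (p ++ [!b]) _ (List.prefix_append _ _) hRp
          exact hji (hsp h2 h6)
        have hdis : Disjoint (L4.toFinset.filter fun w => p <+: w)
            (L4.toFinset.filter fun w => (q ++ [b]) <+: w) := by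
          rw [Finset.disjoint_left]
          intro w h3 h4
          rw [Finset.mem_filter] at h3 h4
          refine hne (List.prefix_of_prefix_length_le h3.2 h4.2 ?_)
          rw [hp2, List.length_append, mem_L2.1 hq]
          simp
        have h7 := Finset.card_le_card (Finset.union_subset (hcone hRp) (hcone h1))
        rw [Finset.card_union_of_disjoint hdis, cone2 p (mem_L2.2 hp2),
          cone3 (q ++ [b]) (mem_L3.2 (by rw [List.length_append, mem_L2.1 hq]; rfl))] at h7
        omega
      · subst hm6
        have hp4 : p.length = 4 := by rw [hp]; interval_cases i <;> rfl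
        rw [Nat.one_le_iff_ne_zero, Finset.card_ne_zero]
        exact ⟨p, Finset.mem_filter.2 ⟨List.mem_toFinset.2 (mem_L4.2 hp4), hRp⟩⟩
      · have hp3 : p.length = 3 := by
          rw [hp]
          interval_cases i <;> interval_cases m <;> first | rfl | omega
        rw [← cone3 p (mem_L3.2 hp3)]
        exact Finset.card_le_card (hcone hRp)
    have h8 := Finset.sum_le_sum (s := Finset.range 7) fun m hm => hcard m (Finset.mem_range.1 hm)
    have h9 : ∑ m ∈ Finset.range 7, (if m = i then 6 else if m = 6 then 1 else 2) = 17 := by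
      interval_cases i <;> rfl
    omega
  by_cases hB0 : Bn n0 y 0
  · exact case1 0 (by omega) hB0 (by rw [hfs]; unfold ch; rw [if_pos hB0])
  by_cases hB1 : Bn n0 y 1
  · exact case1 1 (by omega) hB1 (by rw [hfs]; unfold ch; rw [if_neg hB0, if_pos hB1])
  by_cases hB2 : Bn n0 y 2
  · exact case1 2 (by omega) hB2 (by
      rw [hfs]; unfold ch; rw [if_neg hB0, if_neg hB1, if_pos hB2])
  have hf : fs y = 4 := by rw [hfs]; unfold ch; rw [if_neg hB0, if_neg hB1, if_neg hB2]
  have hB : ∀ i < 3, ¬ Bn n0 y i := by
    intro i hi; interval_cases i <;> assumption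
  -- case 2
  choose! p hp hRp using hD
  have hpar : ∀ i < 3, ∃ q ∈ L2, ∃ b : Bool, p i = q ++ [b] := by
    intro i hi
    have h1 := mem_L3.1 (hp i hi)
    refine ⟨(p i).take 2, mem_L2.2 (by rw [List.length_take, h1]; rfl), ?_⟩
    match h2 : p i, h1 with
    | [a, b, c], _ => exact ⟨c, rfl⟩
  choose! q hq b hb using hpar
  have hq_ne : ∀ i < 3, ∀ j < 3, i ≠ j → q i ≠ q j := by
    intro i hi j hj hij hqq
    apply hB i hi
    refine ⟨q i, hq i hi, b i, by cases b i <;> simp, ?_, j, hj, hij.symm, ?_⟩
    · rw [← hb i hi]; exact hRp i hi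
    · have hbb : b j = !(b i) := by
        by_contra hne
        have h1 : b j = b i := by
          revert hne; cases b i <;> cases b j <;> simp
        have h2 : p i = p j := by rw [hb i hi, hb j hj, hqq, h1]
        have h3 := toR (hRp i hi)
        rw [h2] at h3
        exact hij (hsp h3 (toR (hRp j hj)))
      rw [hqq, ← hbb, ← hb j hj]
      exact hRp j hj
  have hr : ∀ i, 3 ≤ i → i < 5 → ∃ r ∈ L2, R y r (sp i) := by
    intro i h1 h2
    obtain ⟨r, hr, hRr⟩ := hprog i (by omega)
    refine ⟨r, mem_L2.2 ?_, hRr⟩
    rw [hr, hf]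
    interval_cases i <;> rfl
  choose! r hr hRr using hr
  let g : ℕ → Str := fun i => if i < 3 then q i else r i
  have hg : ∀ i ∈ Finset.range 5, g i ∈ L2.toFinset := by
    intro i hi
    rw [Finset.mem_range] at hi
    rw [List.mem_toFinset]
    simp only [g]
    split_ifs with h
    · exact hq i h
    · exact hr i (by omega) hi
  have hrq : ∀ i < 3, ∀ j, 3 ≤ j → j < 5 → q i ≠ r j := by
    intro i hi j hj hj2 h
    have h1 := hRr j hj hj2
    rw [← h] at h1
    have h2 := hst y (q i) (p i) _ (by rw [hb i hi]; exact List.prefix_append _ _) h1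
    have := hsp h2 (toR (hRp i hi))
    omega
  obtain ⟨i, hi, j, hj, hij, hgij⟩ := Finset.exists_ne_map_eq_of_card_lt_of_maps_to
    (s := Finset.range 5) (t := L2.toFinset) (f := g) (by rw [L2_card]; simp) hg
  rw [Finset.mem_range] at hi hj
  simp only [g] at hgij
  split_ifs at hgij with h1 h2 h2
  · exact hq_ne i h1 j h2 hij hgij
  · exact hrq i h1 j (by omega) hj hgij
  · exact hrq j h2 i (by omega) hi hgij.symm
  · have h3 := hRr i (by omega) hi
    rw [hgij] at h3
    exact hij (hsp h3 (hRr j (by omega) hj))

end Pool.Agent.X234.EX
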